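import Pool.Graph.R_seed8.R790.AP.Cert

/-!
# A subset of `F_11^2` with 53 elements and no balanced weight on its `4`-term progressions
-/

set_option autoImplicit false
set_option maxRecDepth 100000

namespace Pool.Agent.Helper2.AP

open Pool.Agent.R790.AP
open Pool.Agent.Results.MP_b30443_co.BlockSymmetric (lam)

/-- table 0 for `k = 4`, `p = 11`, `d = 2` -/
def t4p11d2a : ℕ :=
  0x7800d004ca40003704080007e30080f8000000000000f8f8000000005601744003c0273c0004100000000000000800002c011c01574c8000000002400be7003c0139d00a6380100119c000004e280150000011bb00dd51e4c01b41660000000000003b400020000900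

/-- table 1 for `k = 4`, `p = 11`, `d = 2` -/
def t4p11d2b : ℕ :=
  0x3801f0064bc0007a5eb8000e4900306800000000000069c8000000005a015140124031740001700000000000000300002c00440433c98000000003400a450074018bb00bc880a001abc000000a88017000001a9d008573a64011174a00000000000076200560002300

theorem t4p11d2_check : check 11 2 7 176 t4p11d2a t4p11d2b [t4p11d2b, t4p11d2a] = true := by
  decide +kernel

theorem t4p11d2_count : cntB (memb 7 t4p11d2a) (11 ^ 2) = 53 := by
  decide +kernel

theorem t4p11d2_lam : ((53 : ℕ) : ℝ) ≤ lam 4 11 ^ 2 := by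
  have : Fact (Nat.Prime 11) := ⟨by norm_num⟩
  exact lam_ge 4 11 2 7 176 53 t4p11d2a t4p11d2b [t4p11d2b, t4p11d2a] (by norm_num) (by norm_num)
    (by norm_num) rfl t4p11d2_check t4p11d2_count

end Pool.Agent.Helper2.AP
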