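import Pool.Graph.R_seed8.R790.AP.Cert

/-!
# A subset of `F_13^2` with 70 elements and no balanced weight on its `4`-term progressions
-/

set_option autoImplicit false
set_option maxRecDepth 100000

namespace Pool.Agent.Helper2.AP

open Pool.Agent.R790.AP
open Pool.Agent.Results.MP_b30443_co.BlockSymmetric (lam)

/-- table 0 for `k = 4`, `p = 13`, `d = 2` -/
def t4p13d2a : ℕ :=
  0x910074179b6b0000005b33004471000074b75e000000812800715600690000000000000000000064009d4300552900006b804d61c1002960008f8c000033000041000000006c000000000000002600005600009a85000066430062000000004b000000008900004843008700aa77004f00000022000000810a008500000000000000001d00006394000000009e00009236005d2a00000000843d526c00003d803d00440000003100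

/-- table 1 for `k = 4`, `p = 13`, `d = 2` -/
def t4p13d2b : ℕ :=
  0x31004eab2757000000678f007e5100004e0b64000000419a00516c0059000000000000000000005e00257f006d990000574275610100996200333600008f0000810000000056000000000000009c00006c0000283d00005c7f00600000000077000000003900007a7f003b00184b0073000000a000000041b8003d0000000000000000a500005f2e00000000240000308c006598000000003e8570560000854285007e0000009100

theorem t4p13d2_check : check 13 2 8 388 t4p13d2a t4p13d2b [t4p13d2b, t4p13d2a] = true := by
  decide +kernel

theorem t4p13d2_count : cntB (memb 8 t4p13d2a) (13 ^ 2) = 70 := by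
  decide +kernel

theorem t4p13d2_lam : ((70 : ℕ) : ℝ) ≤ lam 4 13 ^ 2 := by
  have : Fact (Nat.Prime 13) := ⟨by norm_num⟩
  exact lam_ge 4 13 2 8 388 70 t4p13d2a t4p13d2b [t4p13d2b, t4p13d2a] (by norm_num) (by norm_num)
    (by norm_num) rfl t4p13d2_check t4p13d2_count

end Pool.Agent.Helper2.AP
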