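import Pool.Graph.R_seed8.R790.AP.Cert

/-!
# A subset of `F_17^2` with 110 elements and no balanced weight on its `4`-term progressions
-/

set_option autoImplicit false
set_option maxRecDepth 100000

namespace Pool.Agent.Helper2.AP

open Pool.Agent.R790.AP
open Pool.Agent.Results.MP_b30443_co.BlockSymmetric (lam)

/-- table 0 for `k = 4`, `p = 17`, `d = 2` -/
def t4p17d2a : ℕ :=
  0xbb000000000000060478466a915000fd0000000000000000006637000001b740800000f4001b9000004a9ae48c004e0000000000000000007450f530000002c00063000007014900000000000000037400001c534800002010014d1dd15100000000000000000000000000000180d00000000000530003c400775070013f0000000134000000000000000001aa000001a5070a58f1a80007c00000004fc00000001ecd30000077cef4e40077800000000003f0013f00136000000006a000000004831c0000000401401dc00001a6000005100000000000000000000000000000010a5246b41c2b0012d000006fc0000155000000007833000001da0012e001d1435391fd0a145d34740000000000002740000000118c200000000e54dc003940072c0000000000000000000000000833ac0000000000001b0000fc004b0000d0004880043400000000000000000000f24ec004a503000843f0000011d00000000000007e3ac00001cf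

/-- table 1 for `k = 4`, `p = 17`, `d = 2` -/
def t4p17d2b : ℕ :=
  0x1470000000000001a2391bc160ed001050000000000000000019c498000004b400000010e00049000003605437c00328000000000000000000c4f32d800001d60019f00000108b9000000000000000494000003d4c00000001000b562ced7080000000000000000000000000006893200000000002d80044400094fb000c300000000ce0000000000000000005800000664fb764736600078c000000030c000000061d2f0000008d13324000900000000001c3000c3000cc000000019800000001ba4ec0000000408c262c000005c000002f8000000000000000000000000000000f82e5973edd7000d50000010c00000ad000000018a4d80000028000d4000313d4c960cf86c42f39400000000000059400000006f140000000011d32c00474000dc00000000000000000000000017f45c0000000000006580070c003580073800380003d4000000000000000000011031c00364ff0017e41800000e500000000000018445c0000033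

theorem t4p17d2_check : check 17 2 10 1028 t4p17d2a t4p17d2b [t4p17d2b, t4p17d2a] = true := by
  decide +kernel

theorem t4p17d2_count : cntB (memb 10 t4p17d2a) (17 ^ 2) = 110 := by
  decide +kernel

theorem t4p17d2_lam : ((110 : ℕ) : ℝ) ≤ lam 4 17 ^ 2 := by
  have : Fact (Nat.Prime 17) := ⟨by norm_num⟩
  exact lam_ge 4 17 2 10 1028 110 t4p17d2a t4p17d2b [t4p17d2b, t4p17d2a] (by norm_num) (by norm_num)
    (by norm_num) rfl t4p17d2_check t4p17d2_count

end Pool.Agent.Helper2.AP
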