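import Pool.Graph.R_seed8.R790.AP.Cert

/-!
# A subset of `F_19^2` with 132 elements and no balanced weight on its `4`-term progressions
-/

set_option autoImplicit false
set_option maxRecDepth 100000

namespace Pool.Agent.Helper2.AP

open Pool.Agent.R790.AP
open Pool.Agent.Results.MP_b30443_co.BlockSymmetric (lam)

/-- table 0 for `k = 4`, `p = 19`, `d = 2` -/
def t4p19d2a : ℕ :=
  0x1780fa544fc00001bc0000000000001c8820c40016556c000ec8e001660000000000520003d9c4000e900000001c7854000000074c000007861955001791025b000003e00000000000f96ec0000000000000000000c0058961001760e400000000000000000000006c00000000000007320c2a80000000850002016c580005c8009512f000000000000000000006fc0000000000000000100000558005c43597400000006fc004fc003edbf000000000000000000000000000000000000000000178002514b0003d4000000000000001bf80c00279557362005c860015d001700c8004c0003f5bf000da0000000000000000000000000000006b55d000000ea624dc003e5af98542000006f800000000000000210388005080000173000fc000005b43996000000f200000000000000071a0c1549d001c8884001e992560000003c96935000fb700000000000000000000000000000000230016357c000003100000000f80dc000000000000000000000000000848c600000000005b88d5e800000000025500000000000000000000001bd828000000075c0008c83001580016d0025a4e000001b700000000f800000000000000000000000000000000000100004e800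

/-- table 1 for `k = 4`, `p = 19`, `d = 2` -/
def t4p19d2b : ℕ :=
  0x11e9604255c00000da0000000000000ce239d2001314ec0096e0800130000000000053800680d2001ad00000000cf204000000030c000021e441410011d9583b0000067800000000019d36c00000000000000000a4c004d1350012097400000000000000000000003980000000000003288a7b00000000208008592a4d80049000109670000000000000000000035c000000000000002950000050000496610e4000000035c0055c0066cd700000000000000000000000000000000000000000011e000455a800684000000000000000d724c007e141324769fe1000139001269900059800664d7001bc0000000000000000000000000000003a539000009703457c00674e70d55400000360000000000000000866d00055000001230019a000004a65d0f800001a40000000000000003408a905f9000ce1d400871044f8000025a0f1610019b35800000000000000000000000000000273001334dc0000265000000019e97c000000000000000000000000000211d000000000004a20947000000000004100000000000000000000000d923000000002fc009ce130013e001290003c57800000df000000019e000000000000000000000000000000000009580057000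

theorem t4p19d2_check : check 19 2 10 1324 t4p19d2a t4p19d2b [t4p19d2b, t4p19d2a] = true := by
  decide +kernel

theorem t4p19d2_count : cntB (memb 10 t4p19d2a) (19 ^ 2) = 132 := by
  decide +kernel

theorem t4p19d2_lam : ((132 : ℕ) : ℝ) ≤ lam 4 19 ^ 2 := by
  have : Fact (Nat.Prime 19) := ⟨by norm_num⟩
  exact lam_ge 4 19 2 10 1324 132 t4p19d2a t4p19d2b [t4p19d2b, t4p19d2a] (by norm_num) (by norm_num)
    (by norm_num) rfl t4p19d2_check t4p19d2_count

end Pool.Agent.Helper2.AP
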