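import Pool.Graph.R_seed8.R790.AP.Cert

/-!
# A subset of `F_23^2` with 177 elements and no balanced weight on its `4`-term progressions
-/

set_option autoImplicit false
set_option maxRecDepth 100000

namespace Pool.Agent.Helper2.AP

open Pool.Agent.R790.AP
open Pool.Agent.Results.MP_b30443_co.BlockSymmetric (lam)

/-- table 0 for `k = 4`, `p = 23`, `d = 2` -/
def t4p23d2a : ℕ :=
  0x5500168000002000005a0000000003b80000431e400c070000000000000ccf2630012200002d99e2d352ac00ac000000000001ec00c2000a4c8ab0000000000000000c2004040061003080000000000000002b0010400001eeb80022cee00000005a00570016000000000000368000000181c15e005780000000000000007c800005d5a00000000000c000000001fc00000000000471f800ba7000168007a000e0005d801167a002e00026002dc00ad00000c6004500000006800000000000000000200000c0003ec005c0000000000000000000000000f300185e60000224000000000005a0000000007a80000000000188000000000005500000000000000007d8004e000000000000019400005e001ea0030bac00000000000b7000016e000000000f05f0011400002f5b4002d0000000000000000000000000000a400a8002a400000100000b5003d80068003040000000000000002c8000000001e6bb00000de00003700000003e800007600000863400178dd1317800000000000040000000005bb4c006f00001500000190000000000000034801860045800000a000015e007e000ce005a801186e00001aa000000000000000184000000000b26b8b8ca000000000000000000b4000000000752dc00a90000000000000001020017000b5001fcd2000036c506a00000005f7c8000000398016edf0000164000000000050000170005db90546a580000000000000000000000000003a40000441dc000100000000000000e2005d000000000000002a34ab000aa003a18200001d00000000a4d0ac0000000000000000b7000000066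

/-- table 1 for `k = 4`, `p = 23`, `d = 2` -/
def t4p23d2b : ℕ :=
  0x450010000004b00000400000000001180000572ec00742a0000000000019c42370014600001f8cb07652240088000000000002e400720042da089000000000000000072000cc00d3001c80000000000000002200030000007a7c002a57a00000020e00430010800000000000638000000823110a004280000000000000001d80000d7400000000004c40000000006c00000000000532d8007a2a00100002000188003c80152ba001f0010e001f4008700001a200550000000320000000000000000980000074000e400d80000000000000000000000000410034c8200002ac00000000000da0000000001f800000000000e0000000000004500000000000000001c8021a000000000000033c00003c0007e0069924000000000007d00000fa000000000443b0015400001dcb4006d00000000000000000000000000042c008c0022c000099000007f000f800cc001cc0000000000000002080000000008279000018a00001600000000e800002400000ae66000f0578735800000000001300000000003e98400c500001180000340000000000000065800e20054800012a000010a001c0019a003f80150c600000be0000000000000000e4000000000822ec199e00000000000000000080000000000251f4008b00000000000000003200360007f002d596000016618ca0000000d51d800000060800fa5500001040000000012f00000f8003c94214ca4200000000000000000000000000012c0000562f401330000000000000186003d000000000000010a65a20008a00130e6000030000000042d988800000000000000007d0000000ce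

theorem t4p23d2_check : check 23 2 9 616 t4p23d2a t4p23d2b [t4p23d2b, t4p23d2a] = true := by
  decide +kernel

theorem t4p23d2_count : cntB (memb 9 t4p23d2a) (23 ^ 2) = 177 := by
  decide +kernel

theorem t4p23d2_lam : ((177 : ℕ) : ℝ) ≤ lam 4 23 ^ 2 := by
  have : Fact (Nat.Prime 23) := ⟨by norm_num⟩
  exact lam_ge 4 23 2 9 616 177 t4p23d2a t4p23d2b [t4p23d2b, t4p23d2a] (by norm_num) (by norm_num)
    (by norm_num) rfl t4p23d2_check t4p23d2_count

end Pool.Agent.Helper2.AP
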