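import Pool.Graph.R_seed8.R790.AP.Cert

/-!
# A subset of `F_11^2` with 73 elements and no balanced weight on its `5`-term progressions
-/

set_option autoImplicit false
set_option maxRecDepth 100000

namespace Pool.Agent.Helper2.AP

open Pool.Agent.R790.AP
open Pool.Agent.Results.MP_b30443_co.BlockSymmetric (lam)

/-- table 0 for `k = 5`, `p = 11`, `d = 2` -/
def t5p11d2a : ℕ :=
  0x2fd30002f090000000baf6eb3baf6ebebaf8000baefcc6bb100000002eb70002ecdbd10000bb08000bb12ec3bae6eb8bb02ec70000000bae40000002ec9babc000baf8000bae2ebdbaff221bb2aecebaeeeb300000000002ebbbaceed6bae4000babeebac140000bb0eeb9bacaebd0000000babc0000002ec7bafaefd0002eb4baf0000badeec3bb0eeaf000000000000000000000bb28000baeaeb70002ef6bbaaeb100000000002ebd0000000bc22ec00002eb3bad8000bb14000bafaecfbaeaebfbab80000000000baf40000000000baeb053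

/-- table 1 for `k = 5`, `p = 11`, `d = 2` -/
def t5p11d2b : ℕ :=
  0x2f870002f4e0000000bb22ecabb1eeccbb08000bb278dfbae80000002ed10002ec4bb74000bb04000bbb2ebebb26ec8bb26eb50000000bb380000002ec1bb3c000bb48000bb22ec5bb0726cbb0eeb9bb2aedb00000000002ecbbb92ecebb44000bb8eecec904000bb2eeddbb82ec00000000bb580000002ed6bb2aee90002ed6bb2c000bb22ecdbafeec9000000000000000000000bb5c000bb56ecd0002ecbbb9aec600000000002ecb0000000bc1eecc0002ed7bb2c000bb6c000bb22eb7bb2aed0bb700000000000bb080000000000bb4aef8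

/-- table 2 for `k = 5`, `p = 11`, `d = 2` -/
def t5p11d2c : ℕ :=
  0x2c970002e9d0000000c107051c10f037c12c000c10c001c13c000000303b0003029bc24000c114000bfaf049c11f04bc0e70530000000c0f40000003037c13c000c0ac000c12f047c12e231c0c703dc10702f0000000000303fc077003c0dc000c09f03b98a4000c0bf01fc09f0510000000c1040000003011c0eef7f0003037c0f4000c13702bc11f05b000000000000000000000c024000c0b70430002fc9beaf05d0000000000303b0000000bcb70330003037c124000c02c000c0ff03fc10f02dc0dc0000000000c1340000000000c0cecb5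

theorem t5p11d2_check : check 11 2 14 60235 t5p11d2a t5p11d2b [t5p11d2c, t5p11d2b, t5p11d2a] = true := by
  decide +kernel

theorem t5p11d2_count : cntB (memb 14 t5p11d2a) (11 ^ 2) = 73 := by
  decide +kernel

theorem t5p11d2_lam : ((73 : ℕ) : ℝ) ≤ lam 5 11 ^ 2 := by
  have : Fact (Nat.Prime 11) := ⟨by norm_num⟩
  exact lam_ge 5 11 2 14 60235 73 t5p11d2a t5p11d2b [t5p11d2c, t5p11d2b, t5p11d2a] (by norm_num) (by norm_num)
    (by norm_num) rfl t5p11d2_check t5p11d2_count

end Pool.Agent.Helper2.AP
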