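import Pool.Graph.R_seed8.R790.AP.Cert

/-!
# A subset of `F_13^2` with 102 elements and no balanced weight on its `5`-term progressions
-/

set_option autoImplicit false
set_option maxRecDepth 100000

namespace Pool.Agent.Helper2.AP

open Pool.Agent.R790.AP
open Pool.Agent.Results.MP_b30443_co.BlockSymmetric (lam)

/-- table 0 for `k = 5`, `p = 13`, `d = 2` -/
def t5p13d2a : ℕ :=
  0xa11c6845d00002843fa111a845c00002843d000028463a11ae8453a111a846600002843600002845e00002845aa11628469a118c0000a11028462a11be845ca11828606a11780000a10e68444a11740000a10bc0000a11840000a10e2844aa118c0000a10e00000a118a8477a114e845fb2db00000a10e28ad6a118e847000002845f00000000000002843ca11328464a115e8466a119a846b000028437a111a8465000000000000000000a11b40000000000000000028434000000000a11c68456a11840000a1184000000002845ca11c40000a118383a8a11980000a10de844c000000000000028a76000000000000028448a11740000a10bc0000a11980000a114c0000a11840000a10d284c2000028469000028467a11a0000000002843b000000000a1156845fa11968464000028442a11040000000028435000028462000000000000028465000000000000028467a11a2845a000000000a118a8437000028460a11b68452a116a846fa11980000a10f28442a11900000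

/-- table 1 for `k = 5`, `p = 13`, `d = 2` -/
def t5p13d2b : ℕ :=
  0xa232285b30000285bca166285b50000285b70000285aaa162e85aaa165a85af0000285bb0000285ac0000285a2a170eab7fa16d40000a16c685aca161e85aba16f68731a16e40000a16de8597a16c40000a17000000a16e00000a16e68593a16c80000a16c80000a16ba8588a16a685b7b45100000a16de9223a16ba858a0000285b30000000000000285b9a166e85b1a16a685b0a173a85b50000285c0a166e85b0000000000000000000a163400000000000000000285b7000000000a161285aea16f80000a16d800000000285afa16240000a16eecf8da16b80000a16f685950000000000000285cf00000000000002859ba16cc0000a17000000a16980000a16b80000a16c80000a16d6860900002858b0000285b0a171800000000285bf000000000a16ae85c2a173a85b30000285b3a167c00000000285b90000285ab0000000000000285ae0000000000000285a9a164a85a7000000000a16ca85b50000285a8a160a85a6a16fa85c5a16b80000a16de85a0a16cc0000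

/-- table 2 for `k = 5`, `p = 13`, `d = 2` -/
def t5p13d2c : ℕ :=
  0xa2fe6924b000029275a4abe9249000029283000029251a49fe9271a4ace9241000029289000029257000029273a48d6469ba48ec0000a4a26924fa49fe925da48c68bfda48f40000a4a2e92b5a493c0000a4a340000a48e40000a4a2692b1a49040000a4a5c0000a492e926da49ce923f5b42c0000a4a366c79a49269277000029247000000000000029281a4a769241a49ae923fa480e922b00002927da4aa69241000000000000000000a49dc0000000000000000029295000000000a4a069263a48b40000a48f40000000029255a49dc0000a48d40001a490c0000a4a0e92a90000000000000285e10000000000000292a5a492c0000a4a340000a494c0000a49a40000a49140000a4a6690d500002928300002923da483c0000000029277000000000a49ae9229a4816923d000029281a4aac000000002928f00002925100000000000002924500000000000002924ba49de9269000000000a490e929300002925ba4a36927ba48ee9203a490c0000a4a1692a7a48f40000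

theorem t5p13d2_check : check 13 2 18 829035 t5p13d2a t5p13d2b [t5p13d2c, t5p13d2b, t5p13d2a] = true := by
  decide +kernel

theorem t5p13d2_count : cntB (memb 18 t5p13d2a) (13 ^ 2) = 102 := by
  decide +kernel

theorem t5p13d2_lam : ((102 : ℕ) : ℝ) ≤ lam 5 13 ^ 2 := by
  have : Fact (Nat.Prime 13) := ⟨by norm_num⟩
  exact lam_ge 5 13 2 18 829035 102 t5p13d2a t5p13d2b [t5p13d2c, t5p13d2b, t5p13d2a] (by norm_num) (by norm_num)
    (by norm_num) rfl t5p13d2_check t5p13d2_count

end Pool.Agent.Helper2.AP
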