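import Pool.Graph.R_seed8.R790.AP.Cert

/-!
# A subset of `F_17^2` with 173 elements and no balanced weight on its `6`-term progressions
-/

set_option autoImplicit false
set_option maxRecDepth 100000

namespace Pool.Agent.Helper2.AP

open Pool.Agent.R790.AP
open Pool.Agent.Results.MP_b30443_co.BlockSymmetric (lam)

/-- table 0 for `k = 6`, `p = 17`, `d = 2` -/
def t6p17d2a : ℕ :=
  0xb79512ce0009bd390004700000000042294556a2d4540014f800000831728005860000024b5f6000001b24b28f8001aa4ce82c002ab42c0000035053eb600025a4aeda800000000aac00000368000000005388e400216000abd6d20f6a2a356f8004d899d9f2300006a531a07000a9511000000ac916800416d654bad5000971372cc468000d3a52000000d6a5543800158a24000809b22a100000134a5a54a8e0002555448d40000000085800000000000fd000526b3c0040f554000002594d4001080000009580024654c8a4001f852e894002105a8a6d6580000000158a2f0006752da240006d52ea0f000a7513800420b80002c30009b93c2d74440013500048e0000025047600000000000844002925aa001382880000013700069c894001b200083d1b80045e0010b80045600000336554b180026e4c4ad91f00036c98509800000988ff22355c000000005bc000000004c498962237000668000000006a131226000ad90e000402b88002cd0009a93a2d50009c4002d5000000d2a48000001542350007f5b1a9e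

/-- table 1 for `k = 6`, `p = 17`, `d = 2` -/
def t6p17d2b : ℕ :=
  0x87140255000ab94d00043c0000000040a895112553ce00115800000a54e90004ec000002c93c8000002e655684c002f55587e40022d4b20000026c50696c002ac55699800000000760000005f60000000046e95800293000a0d32a933aea192d80055aac919a2a000bc5569f5000895290000008a52a00052475d4b259000aa9589f24400017bab400000179aac40c0011424d000a8ceda9000000158aa749c888002c1430878000000007ec00000000001548005189640032e52a000002ad54200125800000ab800251462958002a846095c00293390a192e00000000101a3a000c1155228000b8d54a470008d92e00051a93c0025c000abd4b26e45400154000424000002b73f600000000000a78002954b60015428d00000153800594884002f3000809158004a40014980049e000002424fe97c002a95527fd098005cead0fd800000a9519a184580000000047c0000000055ca9d08221000bb800000000bbd5e1f800089d2e8005189200025e000a8d5225e000a7c0024c00000180abc00000118a4c000a6cf2a81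

/-- table 2 for `k = 6`, `p = 17`, `d = 2` -/
def t6p17d2c : ℕ :=
  0x9110e21b000885190005d000000000650b2137abc65a0013a000000a754380040a0000022a4be000002a6474bb40029f456ce80026659e0000018243882c002384785b800000000aec0000051e000000004d6abc00295000830ffa9c42c8ad0200044a894e6ae4000a91173420009d16500000098d5e80054283908a100008e10fa805d4001502380000014f23d63800132acd000a64ffa0d0000011223d496b9000228508bac00000000cb4000000000014d80043e858000013fe00000238466001718000008e8002a74ceafc0029e4eeb080029b5448750b800000001452d5000a751caf2000a991c2e80009ad5d80054283c0021f000885181f95e4001160005ca0000023761000000000000a3c0021741c001132290000011480024cbe000299000cb56e00057a0014a000588000001c642a86400227466a25768005428a5980000008dd86b034c8000000004440000000045c8d5352e6000ad800000000a9d1032000098562800562850002130008c51320b0008b80021d0000014c23a00000132abd000a98fb21f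

theorem t6p17d2_check : check 17 2 11 3708 t6p17d2a t6p17d2b [t6p17d2c, t6p17d2c, t6p17d2b, t6p17d2a] = true := by
  decide +kernel

theorem t6p17d2_count : cntB (memb 11 t6p17d2a) (17 ^ 2) = 173 := by
  decide +kernel

theorem t6p17d2_lam : ((173 : ℕ) : ℝ) ≤ lam 6 17 ^ 2 := by
  have : Fact (Nat.Prime 17) := ⟨by norm_num⟩
  exact lam_ge 6 17 2 11 3708 173 t6p17d2a t6p17d2b [t6p17d2c, t6p17d2c, t6p17d2b, t6p17d2a] (by norm_num) (by norm_num)
    (by norm_num) rfl t6p17d2_check t6p17d2_count

end Pool.Agent.Helper2.AP
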