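import Pool.Graph.R_seed8.R790.AP.Cert

/-!
# A subset of `F_7^3` with 169 elements and no balanced weight on its `6`-term progressions
-/

set_option autoImplicit false
set_option maxRecDepth 100000

namespace Pool.Agent.Helper2.AP

open Pool.Agent.R790.AP
open Pool.Agent.Results.MP_b30443_co.BlockSymmetric (lam)

/-- table 0 for `k = 6`, `p = 7`, `d = 3` -/
def t6p7d3a : ℕ :=
  0x698e6c0629e73a80bd7a58d3bb4ad4ec6a300b9dadc401b4a9dea02d5a96340229e7b4c73f67b53adac01b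

/-- table 1 for `k = 6`, `p = 7`, `d = 3` -/
def t6p7d3b : ℕ :=
  0x698e6c0629e73a80bd7a58d3bb4ad4ec6a300b9dadc401b4a9dea02d5a96340229e7b4c73f67b53adac01b

/-- table 2 for `k = 6`, `p = 7`, `d = 3` -/
def t6p7d3c : ℕ :=
  0x698e6c0629e73a80bd7a58d3bb4ad4ec6a300b9dadc401b4a9dea02d5a96340229e7b4c73f67b53adac01b

theorem t6p7d3_check : check 7 3 1 6 t6p7d3a t6p7d3b [t6p7d3c, t6p7d3c, t6p7d3b, t6p7d3a] = true := by
  decide +kernel

theorem t6p7d3_count : cntB (memb 1 t6p7d3a) (7 ^ 3) = 169 := by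
  decide +kernel

theorem t6p7d3_lam : ((169 : ℕ) : ℝ) ≤ lam 6 7 ^ 3 := by
  have : Fact (Nat.Prime 7) := ⟨by norm_num⟩
  exact lam_ge 6 7 3 1 6 169 t6p7d3a t6p7d3b [t6p7d3c, t6p7d3c, t6p7d3b, t6p7d3a] (by norm_num) (by norm_num)
    (by norm_num) rfl t6p7d3_check t6p7d3_count

end Pool.Agent.Helper2.AP
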