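import Pool.Graph.R_seed8.R790.AP.Cert

/-!
# A subset of `F_11^2` with 88 elements and no balanced weight on its `7`-term progressions
-/

set_option autoImplicit false
set_option maxRecDepth 100000

namespace Pool.Agent.Helper2.AP

open Pool.Agent.R790.AP
open Pool.Agent.Results.MP_b30443_co.BlockSymmetric (lam)

/-- table 0 for `k = 7`, `p = 11`, `d = 2` -/
def t7p11d2a : ℕ :=
  0xb1ad00a5ad95940091aaa299a4b998af91aca2000000009e00ae00009c00a9009f9d9a00b69e00ac8c9facc187b5a9ae9e000097a9989e9a0098a3008e0094ab94b6adb4000099ac989a0083b59aaa0000b18fb3b1aa8000900095a08fcd9e9d00a9b0009e00008b00abb9a2d2a38a0000b19900a1bd9da9b2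

/-- table 1 for `k = 7`, `p = 11`, `d = 2` -/
def t7p11d2b : ℕ :=
  0x9ea700a79da39b00b09091a090acaaa3ae9da400000000b6008d0000a300a500aeaba500d5ca00acb5998ba0aa828d96b900008d9ba6a0a100979300a000aaae8ea29e9c0000b292a5a500b3a6c4950000a4a9a094adb300b100b39b95b59baa00969d00980000a6008f91abbeb7b6000098af00a58d9395ae

/-- table 2 for `k = 7`, `p = 11`, `d = 2` -/
def t7p11d2c : ℕ :=
  0x93910095a0a7b1009baaa2a3bcaba099aba1a5000000008c00b20000a000a8009fb5a400afaa00939e98ad8db7b1b2959b0000bba09b98b100aeb200a400a49bbf93a29f00008da1c6a300a495939e0000979986a98cab00a40096a5bbb6b0ad00aba600b20000b800aaad91a887960000a59300a69fab9f93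

/-- table 3 for `k = 7`, `p = 11`, `d = 2` -/
def t7p11d2d : ℕ :=
  0xb1ab00b3a1b7b500bdadcbbd9555b19fa1a19f00000000b5009b0000b70089009d7baf000151009fb7d5ad99a5a5a5c3910000b7adc3c99d00bba500d100b18db39f9b970000c5b76fb100c19593bb00009dd3c399afb900ab00b9b5b705a38d00a18f00a50000a300ad87b905b3c9000099bf009da3bfbb8f

theorem t7p11d2_check : check 11 2 8 1141 t7p11d2a t7p11d2b [t7p11d2c, t7p11d2d, t7p11d2c, t7p11d2b, t7p11d2a] = true := by
  decide +kernel

theorem t7p11d2_count : cntB (memb 8 t7p11d2a) (11 ^ 2) = 88 := by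
  decide +kernel

theorem t7p11d2_lam : ((88 : ℕ) : ℝ) ≤ lam 7 11 ^ 2 := by
  have : Fact (Nat.Prime 11) := ⟨by norm_num⟩
  exact lam_ge 7 11 2 8 1141 88 t7p11d2a t7p11d2b [t7p11d2c, t7p11d2d, t7p11d2c, t7p11d2b, t7p11d2a] (by norm_num) (by norm_num)
    (by norm_num) rfl t7p11d2_check t7p11d2_count

end Pool.Agent.Helper2.AP
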