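import Pool.Graph.R_seed8.R790.AP.Cert

/-!
# A subset of `F_13^2` with 125 elements and no balanced weight on its `8`-term progressions
-/

set_option autoImplicit false
set_option maxRecDepth 100000

namespace Pool.Agent.Helper2.AP

open Pool.Agent.R790.AP
open Pool.Agent.Results.MP_b30443_co.BlockSymmetric (lam)

/-- table 0 for `k = 8`, `p = 13`, `d = 2` -/
def t8p13d2a : ℕ :=
  0x917e84a900006800004c6b0056907a90003ea60079004b69a48c790000806d9fa3847c94009a58930071008d006f757a00007d000093659f005d449000b5006e7c7b738d7ec79d839600904c000094859e009c7d96002d9f7c9e8f00a1577e007f9c997fa37f00777fb8ad7961af00706e8500699700008458a46f55707c8b8ad09d00889790009d7f78870061007d00848a9900896e78b37d75a89e7e450000847c008ca56e690000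

/-- table 1 for `k = 8`, `p = 13`, `d = 2` -/
def t8p13d2b : ℕ :=
  0xd5849f8e00006900006d5100a3918f8d00807900740077938e7b5400008a8150a44b799e006e769b007000af00615f7a0000ac000048987d00959f7d00810069789b8f977b796f879e00227e000087a88200774b5600a18f864f8e007e9acd00bb5d7c6f79ab007a908e766d725c005553480085ba0000949e7891b0b796836e788500b5b882009555848800790001007e70630091709d9598afb5b98b7c000095a300a38362870000

/-- table 2 for `k = 8`, `p = 13`, `d = 2` -/
def t8p13d2c : ℕ :=
  0x689a7d5400008700007499009c8d7d60008c7d0076009b676fa9a00000a1818738938e8a009a888100a9005100a56ab100008b00009d7781008b999b007b008284709a5f81528a848400c39f0000947f6f00727a7a0087607a8d5400807d5e00935f6b9f7b91008d818b6fa4983f009a8a8d007a660000b96e6db662839589896b85003e5898007b9396b2008e00f3008a628e007677708087ac5b4b917100009b8c005a75a8a00000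

/-- table 3 for `k = 8`, `p = 13`, `d = 2` -/
def t8p13d2d : ℕ :=
  0x3e706c810000b40000dfb700775e868f00c27000a900afa96b5c9f0000619d968daa8950006ab65d0082007f0097ce67000058000094986f008f9064005b00b394867089927a767e540097a300005d607d0087caa600b77e90929b006d9e63003fb48c7f7551008e7c3b7a82a1c200adc1b200a45500003ba88356a56265758b596500916562005fa57a4b00a4009b0080b082007cb78744703c546a72da0000586100836f947c0000

theorem t8p13d2_check : check 13 2 8 1048 t8p13d2a t8p13d2b [t8p13d2c, t8p13d2d, t8p13d2d, t8p13d2c, t8p13d2b, t8p13d2a] = true := by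
  decide +kernel

theorem t8p13d2_count : cntB (memb 8 t8p13d2a) (13 ^ 2) = 125 := by
  decide +kernel

theorem t8p13d2_lam : ((125 : ℕ) : ℝ) ≤ lam 8 13 ^ 2 := by
  have : Fact (Nat.Prime 13) := ⟨by norm_num⟩
  exact lam_ge 8 13 2 8 1048 125 t8p13d2a t8p13d2b [t8p13d2c, t8p13d2d, t8p13d2d, t8p13d2c, t8p13d2b, t8p13d2a] (by norm_num) (by norm_num)
    (by norm_num) rfl t8p13d2_check t8p13d2_count

end Pool.Agent.Helper2.AP
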