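import Pool.Graph.R_seed8.R790.AP.Cert

/-!
# A subset of `F_13^2` with 131 elements and no balanced weight on its `9`-term progressions
-/

set_option autoImplicit false
set_option maxRecDepth 100000

namespace Pool.Agent.Helper2.AP

open Pool.Agent.R790.AP
open Pool.Agent.Results.MP_b30443_co.BlockSymmetric (lam)

/-- table 0 for `k = 9`, `p = 13`, `d = 2` -/
def t9p13d2a : ℕ :=
  0x51692de0000fab007cc8d4401880365d630417efa3247ae5f14007cfb188014ae32da83c8801fc188fe1b26601f4f5cfa1ae7af633000bc01d00ec0398090000aaccf5f42b80376abc000814d84256a99ac3a0193c76d5b0000d5ec2010a08070024c38ebdfbe56fa2c24d1583c94dc02000fe0ae5142a0000d938000ca24600c43c27c0002d931c03762d80487e0130046014ad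

/-- table 1 for `k = 9`, `p = 13`, `d = 2` -/
def t9p13d2b : ℕ :=
  0x3984c17800084f8080d9cb800600428148c3b77229c050b23550111b4070021ae5725bb3a801db27edd3b082010c094697544cbd3c10128045009003c58840008ece4b17ca002d7ae40008c69f275d0193a9c022b58486b80009233300f58808202427769a0288729cb6849e23754ac03e017e2bf710d30000fe180012deab00e9eae800002b934004976dc04150027806a01d39

/-- table 2 for `k = 9`, `p = 13`, `d = 2` -/
def t9p13d2c : ℕ :=
  0x2c7279100012cf007cfe245007403682c9c3588d232e6ef624b00da9577e022c07ec86bf3a0223e7b2e03b8c020ad6eb602b7add6c6009c04e008805391140002ad5daf64fc035775000086b1c514b2ddb16601a4862bdc000135f290074b00760173d62f4ec95ed5f4f5b51daa8f08058005d9577a3240000b610000add460106a374c00057949802f62dc02286024807801a3d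

/-- table 3 for `k = 9`, `p = 13`, `d = 2` -/
def t9p13d2d : ℕ :=
  0x3a7b0a4000101f00730262f0118035626e2294a8ca5770e0fbd01198b25801a4ebabe7255401aa880aa2c06401ba5672d7358cea9410138036013002b713000070fe220a51804856cc000331debdb8b624c7e01ebb4775b0000f12c100e228068010b483124bf7edce30909dccc58f802800d94a86f0cc8000d1c0000d94bc00f6abd940002f327003881080367a016008a024c2

/-- table 4 for `k = 9`, `p = 13`, `d = 2` -/
def t9p13d2e : ℕ :=
  0x21532eb8000b6f802ecdda1011c03b824cccd771cdafb33599f010e88d6601bad8305edb8600dcf02ad1c752029bf7b861bd6b1d4910094035019c01b53540005f35ac3772c03fa28c0007b05d939af5cbb8e01899bef458000f5ac3016738062020cb3355ba592668938ecd8af66f404500adfa9b2f65800155c800115c9b00bd3b94a000452f3c0338ed403f66016809e020b7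

theorem t9p13d2_check : check 13 2 7 513 t9p13d2a t9p13d2b [t9p13d2c, t9p13d2d, t9p13d2e, t9p13d2d, t9p13d2c, t9p13d2b, t9p13d2a] = true := by
  decide +kernel

theorem t9p13d2_count : cntB (memb 7 t9p13d2a) (13 ^ 2) = 131 := by
  decide +kernel

theorem t9p13d2_lam : ((131 : ℕ) : ℝ) ≤ lam 9 13 ^ 2 := by
  have : Fact (Nat.Prime 13) := ⟨by norm_num⟩
  exact lam_ge 9 13 2 7 513 131 t9p13d2a t9p13d2b [t9p13d2c, t9p13d2d, t9p13d2e, t9p13d2d, t9p13d2c, t9p13d2b, t9p13d2a] (by norm_num) (by norm_num)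
    (by norm_num) rfl t9p13d2_check t9p13d2_count

end Pool.Agent.Helper2.AP
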